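import Mathlib

/-!
# MP_38bec9_co: definitions and the graphs
-/

set_option autoImplicit false

namespace Pool.Agent.X67.SD

open Finset

/-- The family `F` of linear orders of the vertices is pairwise suitable for `G`: for any two
disjoint edges `ab` and `cd` some order of the family puts both ends of one of them before both ends
of the other. -/
def PairwiseSuitable {V : Type} (G : SimpleGraph V) {m : ℕ} (F : Fin m → LinearOrder V) : Prop :=
  ∀ a b c d, G.Adj a b → G.Adj c d → a ≠ c → a ≠ d → b ≠ c → b ≠ d →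
    ∃ i, ((F i).lt a c ∧ (F i).lt a d ∧ (F i).lt b c ∧ (F i).lt b d) ∨
      ((F i).lt c a ∧ (F i).lt c b ∧ (F i).lt d a ∧ (F i).lt d b)

/-- the separation dimension -/
noncomputable def sepDim {V : Type} (G : SimpleGraph V) : ℕ :=
  sInf {m : ℕ | ∃ F : Fin m → LinearOrder V, PairwiseSuitable G F}

/-- three-dimensional Euclidean space -/
abbrev E3 := EuclideanSpace ℝ (Fin 3)

/-- `φ` is a separating embedding of `G` for `m` pairwise non-parallel planes with normal vectors
`u 0, ..., u (m - 1)`: it is injective, and for any two disjoint edges `ab`, `cd` there is a plane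
with normal vector some `u i` such that the segments `[φ a, φ b]` and `[φ c, φ d]` lie in
different open half-spaces bounded by this plane. -/
def Separating {V : Type} (G : SimpleGraph V) {m : ℕ} (u : Fin m → E3) (φ : V → E3) : Prop :=
  (∀ i, u i ≠ 0) ∧ (∀ i j, i ≠ j → ∀ r : ℝ, u i ≠ r • u j) ∧ Function.Injective φ ∧
  ∀ a b c d, G.Adj a b → G.Adj c d → a ≠ c → a ≠ d → b ≠ c → b ≠ d →
    ∃ (i : Fin m) (t : ℝ),
      ((∀ x ∈ segment ℝ (φ a) (φ b), inner ℝ (u i) x < t) ∧
        (∀ x ∈ segment ℝ (φ c) (φ d), t < inner ℝ (u i) x)) ∨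
      ((∀ x ∈ segment ℝ (φ a) (φ b), t < inner ℝ (u i) x) ∧
        (∀ x ∈ segment ℝ (φ c) (φ d), inner ℝ (u i) x < t))

/-- the least number of planes of a separating embedding, as an extended natural number -/
noncomputable def pi3 {V : Type} (G : SimpleGraph V) : ℕ∞ :=
  sInf {N : ℕ∞ | ∃ (m : ℕ) (u : Fin m → E3) (φ : V → E3), Separating G u φ ∧ N = m}

/-! ## The graphs -/

/-- the vertices: seven classes `inl (i, ·)` and seven classes `inr (j, ·)` of `n` vertices each -/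
abbrev Vx (n : ℕ) := (Fin 7 × Fin n) ⊕ (Fin 7 × Fin n)

/-- adjacency: the classes `inl (i, ·)` and `inr (j, ·)` are joined by the perfect matching given
by `σ i j` -/
def AdjRel {n : ℕ} (σ : Fin 7 → Fin 7 → Equiv.Perm (Fin n)) : Vx n → Vx n → Prop
  | Sum.inl (i, x), Sum.inr (j, y) => σ i j x = y
  | Sum.inr (j, y), Sum.inl (i, x) => σ i j x = y
  | _, _ => False

/-- the graph of the permutations `σ i j` -/
def graph {n : ℕ} (σ : Fin 7 → Fin 7 → Equiv.Perm (Fin n)) : SimpleGraph (Vx n) where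
  Adj := AdjRel σ
  symm := ⟨fun a b h => by
    rcases a with ⟨i, x⟩ | ⟨i, x⟩ <;> rcases b with ⟨j, y⟩ | ⟨j, y⟩
    · exact h
    · exact h
    · exact h
    · exact h⟩
  loopless := ⟨fun a h => by
    rcases a with ⟨i, x⟩ | ⟨i, x⟩
    · exact h
    · exact h⟩

/-- the position of a block -/
def rho {n : ℕ} (s : Bool) (x : Fin n) : ℕ := if s then x.val else n - 1 - x.val

theorem rho_lt {n : ℕ} (s : Bool) (x : Fin n) : rho s x < n := by
  unfold rho
  have := x.2
  split_ifs <;> omega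

theorem rho_cases {n : ℕ} {x y : Fin n} (h : x ≠ y) :
    ∃ s, rho s x < rho s y := by
  have h1 : x.val ≠ y.val := fun e => h (Fin.ext e)
  have hx := x.2
  have hy := y.2
  rcases Nat.lt_or_gt_of_ne h1 with h2 | h2
  · exact ⟨true, h2⟩
  · refine ⟨false, ?_⟩
    simp only [rho]
    change n - 1 - x.val < n - 1 - y.val
    omega

/-- the block of a vertex in the order for the classes `i`, `j` -/
def block {n : ℕ} (σ : Fin 7 → Fin 7 → Equiv.Perm (Fin n)) (i j : Fin 7) (s : Bool) : Vx n → ℕ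
  | Sum.inl (i', x) => if i' = i then rho s x else n
  | Sum.inr (j', y) => if j' = j then rho s ((σ i j).symm y) else n

/-- the linear order for the classes `i`, `j` -/
noncomputable def ord {n : ℕ} (σ : Fin 7 → Fin 7 → Equiv.Perm (Fin n)) (i j : Fin 7) (s : Bool) :
    LinearOrder (Vx n) :=
  LinearOrder.lift' (fun v : Vx n => toLex (block σ i j s v, (Fintype.equivFin (Vx n) v).val))
    (fun v w h => by
      have h1 := congrArg (fun z : ℕ ×ₗ ℕ => (ofLex z).2) h
      simp only [ofLex_toLex] at h1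
      exact (Fintype.equivFin (Vx n)).injective (Fin.ext h1))

theorem ord_lt {n : ℕ} (σ : Fin 7 → Fin 7 → Equiv.Perm (Fin n)) (i j : Fin 7) (s : Bool)
    {v w : Vx n} (h : block σ i j s v < block σ i j s w) : (ord σ i j s).lt v w := by
  change toLex (block σ i j s v, (Fintype.equivFin (Vx n) v).val) <
    toLex (block σ i j s w, (Fintype.equivFin (Vx n) w).val)
  rw [Prod.Lex.toLex_lt_toLex]
  exact Or.inl h

/-- two disjoint edges, given by their left ends -/
theorem block_sep {n : ℕ} (σ : Fin 7 → Fin 7 → Equiv.Perm (Fin n)) (i j i' j' : Fin 7)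
    (x x' : Fin n) (h1 : (Sum.inl (i, x) : Vx n) ≠ Sum.inl (i', x'))
    (h2 : (Sum.inr (j, σ i j x) : Vx n) ≠ Sum.inr (j', σ i' j' x')) :
    ∃ s, block σ i j s (Sum.inl (i, x)) < block σ i j s (Sum.inl (i', x')) ∧
      block σ i j s (Sum.inl (i, x)) < block σ i j s (Sum.inr (j', σ i' j' x')) ∧
      block σ i j s (Sum.inr (j, σ i j x)) < block σ i j s (Sum.inl (i', x')) ∧
      block σ i j s (Sum.inr (j, σ i j x)) < block σ i j s (Sum.inr (j', σ i' j' x')) := by
  have e1 : ∀ s, block σ i j s (Sum.inl (i, x)) = rho s x := fun s => by simp [block]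
  have e2 : ∀ s, block σ i j s (Sum.inr (j, σ i j x)) = rho s x := fun s => by simp [block]
  simp only [e1, e2]
  by_cases hi : i' = i
  · subst hi
    have hx : x ≠ x' := fun e => h1 (by rw [e])
    obtain ⟨s, hs⟩ := rho_cases hx
    refine ⟨s, ?_⟩
    have f1 : block σ i' j s (Sum.inl (i', x')) = rho s x' := by simp [block]
    rw [f1]
    by_cases hj : j' = j
    · subst hj
      have f2 : block σ i' j' s (Sum.inr (j', σ i' j' x')) = rho s x' := by simp [block]
      rw [f2]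
      exact ⟨hs, hs, hs, hs⟩
    · have f2 : block σ i' j s (Sum.inr (j', σ i' j' x')) = n := by simp [block, hj]
      rw [f2]
      exact ⟨hs, rho_lt s x, hs, rho_lt s x⟩
  · have f1 : ∀ s, block σ i j s (Sum.inl (i', x')) = n := fun s => by simp [block, hi]
    by_cases hj : j' = j
    · subst hj
      have hy : σ i j' x ≠ σ i' j' x' := fun e => h2 (by rw [e])
      have hx : x ≠ (σ i j').symm (σ i' j' x') := fun e => hy (by
        conv_lhs => rw [e]
        rw [Equiv.apply_symm_apply])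
      obtain ⟨s, hs⟩ := rho_cases hx
      refine ⟨s, ?_⟩
      have f2 : block σ i j' s (Sum.inr (j', σ i' j' x')) =
          rho s ((σ i j').symm (σ i' j' x')) := by simp [block]
      rw [f1, f2]
      exact ⟨rho_lt s x, hs, rho_lt s x, hs⟩
    · have f2 : ∀ s, block σ i j s (Sum.inr (j', σ i' j' x')) = n := fun s => by
        simp [block, hj]
      refine ⟨true, ?_⟩
      rw [f1, f2]
      have := rho_lt true x
      exact ⟨this, this, this, this⟩

/-- normal form of an edge -/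
theorem adj_cases {n : ℕ} {σ : Fin 7 → Fin 7 → Equiv.Perm (Fin n)} {a b : Vx n}
    (h : (graph σ).Adj a b) : ∃ i j x, (a = Sum.inl (i, x) ∧ b = Sum.inr (j, σ i j x)) ∨
      (b = Sum.inl (i, x) ∧ a = Sum.inr (j, σ i j x)) := by
  change AdjRel σ a b at h
  rcases a with ⟨i, x⟩ | ⟨j, y⟩ <;> rcases b with ⟨i', x'⟩ | ⟨j', y'⟩
  · exact h.elim
  · change σ i j' x = y' at h
    exact ⟨i, j', x, Or.inl ⟨rfl, by rw [h]⟩⟩
  · change σ i' j x' = y at h
    exact ⟨i', j, x', Or.inr ⟨rfl, by rw [h]⟩⟩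
  · exact h.elim

theorem suitable {n : ℕ} (σ : Fin 7 → Fin 7 → Equiv.Perm (Fin n)) :
    ∃ F : Fin 98 → LinearOrder (Vx n), PairwiseSuitable (graph σ) F := by
  have e : Fin 98 ≃ (Fin 7 × Fin 7) × Bool := (Fintype.equivFinOfCardEq (by simp)).symm
  refine ⟨fun k => ord σ (e k).1.1 (e k).1.2 (e k).2, ?_⟩
  have key : ∀ (i j i' j' : Fin 7) (x x' : Fin n),
      (Sum.inl (i, x) : Vx n) ≠ Sum.inl (i', x') →
      (Sum.inr (j, σ i j x) : Vx n) ≠ Sum.inr (j', σ i' j' x') →
      ∃ k, (ord σ (e k).1.1 (e k).1.2 (e k).2).lt (Sum.inl (i, x)) (Sum.inl (i', x')) ∧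
        (ord σ (e k).1.1 (e k).1.2 (e k).2).lt (Sum.inl (i, x))
          (Sum.inr (j', σ i' j' x')) ∧
        (ord σ (e k).1.1 (e k).1.2 (e k).2).lt (Sum.inr (j, σ i j x)) (Sum.inl (i', x')) ∧
        (ord σ (e k).1.1 (e k).1.2 (e k).2).lt (Sum.inr (j, σ i j x))
          (Sum.inr (j', σ i' j' x')) := by
    intro i j i' j' x x' h1 h2
    obtain ⟨s, hs1, hs2, hs3, hs4⟩ := block_sep σ i j i' j' x x' h1 h2
    refine ⟨e.symm ((i, j), s), ?_⟩
    rw [Equiv.apply_symm_apply]
    exact ⟨ord_lt _ _ _ _ hs1, ord_lt _ _ _ _ hs2, ord_lt _ _ _ _ hs3, ord_lt _ _ _ _ hs4⟩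
  intro a b c d hab hcd hac had hbc hbd
  obtain ⟨i, j, x, ⟨rfl, rfl⟩ | ⟨rfl, rfl⟩⟩ := adj_cases hab <;>
    obtain ⟨i', j', x', ⟨rfl, rfl⟩ | ⟨rfl, rfl⟩⟩ := adj_cases hcd
  · obtain ⟨k, h1, h2, h3, h4⟩ := key i j i' j' x x' hac hbd
    exact ⟨k, Or.inl ⟨h1, h2, h3, h4⟩⟩
  · obtain ⟨k, h1, h2, h3, h4⟩ := key i j i' j' x x' had hbc
    exact ⟨k, Or.inl ⟨h2, h1, h4, h3⟩⟩
  · obtain ⟨k, h1, h2, h3, h4⟩ := key i j i' j' x x' hbc had
    exact ⟨k, Or.inl ⟨h3, h4, h1, h2⟩⟩
  · obtain ⟨k, h1, h2, h3, h4⟩ := key i j i' j' x x' hbd hac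
    exact ⟨k, Or.inl ⟨h4, h3, h2, h1⟩⟩

theorem sepDim_le {n : ℕ} (σ : Fin 7 → Fin 7 → Equiv.Perm (Fin n)) :
    sepDim (graph σ) ≤ 98 := Nat.sInf_le (suitable σ)

end Pool.Agent.X67.SD
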