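import Pool.Agent.X67.SD.Base

/-!
# MP_38bec9_co: counting

Codes for the matchings which are compatible with given levels of the vertices.
-/

set_option autoImplicit false

namespace Pool.Agent.X67.SD

open Finset

theorem dep_ex (a b : ℕ) : ∃ d, a / 2 ^ d = b / 2 ^ d := by
  refine ⟨a + b, ?_⟩
  have h1 : a < 2 ^ (a + b) := lt_of_le_of_lt (Nat.le_add_right a b) Nat.lt_two_pow_self
  have h2 : b < 2 ^ (a + b) := lt_of_le_of_lt (Nat.le_add_left b a) Nat.lt_two_pow_self
  rw [Nat.div_eq_of_lt h1, Nat.div_eq_of_lt h2]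

/-- the height of the least common ancestor of the leaves `a`, `b` of a binary tree -/
def dep (a b : ℕ) : ℕ := Nat.find (dep_ex a b)

theorem dep_spec (a b : ℕ) : a / 2 ^ dep a b = b / 2 ^ dep a b := Nat.find_spec (dep_ex a b)

theorem dep_min {a b d : ℕ} (h : d < dep a b) : a / 2 ^ d ≠ b / 2 ^ d :=
  Nat.find_min (dep_ex a b) h

theorem dep_le {a b h : ℕ} (ha : a < 2 ^ h) (hb : b < 2 ^ h) : dep a b ≤ h := by
  apply Nat.find_min'
  rw [Nat.div_eq_of_lt ha, Nat.div_eq_of_lt hb]

theorem dep_zero {a b : ℕ} (h : dep a b = 0) : a = b := by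
  have := dep_spec a b
  rw [h, pow_zero, Nat.div_one, Nat.div_one] at this
  exact this

/-- if two pairs have the same ancestor and it is not a leaf, then one element of the first pair is
less than one element of the second pair, and conversely -/
theorem dep_cross {a b c d : ℕ} (h1 : dep a b = dep c d) (h2 : a / 2 ^ dep a b = c / 2 ^ dep a b)
    (h3 : dep a b ≠ 0) : min a b < max c d := by
  obtain ⟨e, he⟩ : ∃ e, dep a b = e + 1 := ⟨dep a b - 1, by omega⟩
  have hab := dep_spec a b
  have hcd := dep_spec c d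
  rw [← h1] at hcd
  rw [he] at h2 hab hcd
  have nab : a / 2 ^ e ≠ b / 2 ^ e := dep_min (by omega)
  have ncd : c / 2 ^ e ≠ d / 2 ^ e := dep_min (by omega)
  have key : ∀ z : ℕ, z / 2 ^ (e + 1) = z / 2 ^ e / 2 := fun z => by
    rw [Nat.div_div_eq_div_mul, pow_succ]
  rw [key, key] at h2 hab hcd
  have hlt : min (a / 2 ^ e) (b / 2 ^ e) < max (c / 2 ^ e) (d / 2 ^ e) := by omega
  rcases min_choice a b with hm | hm <;> rcases max_choice c d with hM | hM <;> rw [hm, hM]
  all_goals
    by_contra hcon
    push Not at hcon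
    have q1 : min a b / 2 ^ e ≤ a / 2 ^ e := Nat.div_le_div_right (min_le_left _ _)
    have q2 : min a b / 2 ^ e ≤ b / 2 ^ e := Nat.div_le_div_right (min_le_right _ _)
    have q3 : c / 2 ^ e ≤ max c d / 2 ^ e := Nat.div_le_div_right (le_max_left _ _)
    have q4 : d / 2 ^ e ≤ max c d / 2 ^ e := Nat.div_le_div_right (le_max_right _ _)
    have q5 : max c d / 2 ^ e ≤ min a b / 2 ^ e := by
      rw [hm, hM]
      exact Nat.div_le_div_right hcon
    omega

section Matching

variable {n m h q : ℕ}

/-- the matching `σ` is compatible with the levels `A` of the left ends and `B` of the right ends: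
two edges with the same addresses are within one level in some coordinate -/
def Compat (A B : Fin n → Fin m → ℕ) (σ : Equiv.Perm (Fin n)) : Prop :=
  ∀ x x', x ≠ x' → (∀ t, dep (A x t) (B (σ x) t) = dep (A x' t) (B (σ x') t) ∧
    A x t / 2 ^ dep (A x t) (B (σ x) t) = A x' t / 2 ^ dep (A x t) (B (σ x) t)) →
    ∃ t, dep (A x t) (B (σ x) t) = 0

/-- the candidates for the partner of `x` -/
def cand (A B : Fin n → Fin m → ℕ) (DA DB : Fin n → Fin m → ℕ) (x : Fin n) : Finset (Fin n) :=
  univ.filter fun y => ∀ t, DB y t = DA x t ∧ B y t / 2 ^ DA x t = A x t / 2 ^ DA x t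

/-- heights seen from the left -/
def dA (A B : Fin n → Fin m → ℕ) (σ : Equiv.Perm (Fin n)) : Fin n → Fin m → ℕ :=
  fun x t => dep (A x t) (B (σ x) t)

/-- heights seen from the right -/
def dB (A B : Fin n → Fin m → ℕ) (σ : Equiv.Perm (Fin n)) : Fin n → Fin m → ℕ :=
  fun y t => dep (A (σ.symm y) t) (B y t)

theorem mem_cand (A B : Fin n → Fin m → ℕ) (σ : Equiv.Perm (Fin n)) (x : Fin n) :
    σ x ∈ cand A B (dA A B σ) (dB A B σ) x := by
  unfold cand
  rw [mem_filter]
  refine ⟨mem_univ _, fun t => ⟨?_, ?_⟩⟩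
  · change dep (A (σ.symm (σ x)) t) (B (σ x) t) = dep (A x t) (B (σ x) t)
    rw [Equiv.symm_apply_apply]
  · exact (dep_spec _ _).symm

theorem cand_card {A B : Fin n → Fin m → ℕ} (hq : 1 ≤ q)
    (hB : ∀ t l, (univ.filter fun y => B y t = l).card ≤ q) {σ : Equiv.Perm (Fin n)}
    (hσ : Compat A B σ) (x : Fin n) : (cand A B (dA A B σ) (dB A B σ) x).card ≤ q := by
  by_cases h0 : ∃ t, dA A B σ x t = 0
  · obtain ⟨t, ht⟩ := h0
    refine le_trans (card_le_card ?_) (hB t (A x t))
    intro y hy
    simp only [cand, mem_filter, mem_univ, true_and] at hy ⊢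
    have := (hy t).2
    rw [ht, pow_zero, Nat.div_one, Nat.div_one] at this
    exact this
  · push Not at h0
    refine le_trans ?_ hq
    rw [card_le_one]
    have huniq : ∀ y ∈ cand A B (dA A B σ) (dB A B σ) x, y = σ x := by
      intro y hy
      simp only [cand, mem_filter, mem_univ, true_and] at hy
      by_contra hne
      have hxx : x ≠ σ.symm y := fun e => hne (by rw [e, Equiv.apply_symm_apply])
      obtain ⟨t, ht⟩ := hσ x (σ.symm y) hxx (fun t => by
        obtain ⟨h1, h2⟩ := hy t
        rw [Equiv.apply_symm_apply]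
        have e1 : dep (A (σ.symm y) t) (B y t) = dep (A x t) (B (σ x) t) := h1
        refine ⟨e1.symm, ?_⟩
        have h3 : A x t / 2 ^ dep (A x t) (B (σ x) t) = B y t / 2 ^ dep (A x t) (B (σ x) t) :=
          h2.symm
        have h4 := dep_spec (A (σ.symm y) t) (B y t)
        rw [e1] at h4
        rw [h3, h4])
      exact h0 t ht
    intro y hy z hz
    rw [huniq y hy, huniq z hz]

open scoped Classical in
theorem count_matchings {A B : Fin n → Fin m → ℕ} (hA : ∀ x t, A x t < 2 ^ h)
    (hBh : ∀ x t, B x t < 2 ^ h) (hq : 1 ≤ q)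
    (hB : ∀ t l, (univ.filter fun y => B y t = l).card ≤ q) :
    (univ.filter fun σ : Equiv.Perm (Fin n) => Compat A B σ).card ≤
      ((h + 1) ^ m) ^ n * (((h + 1) ^ m) ^ n * q ^ n) := by
  classical
  let enc : Equiv.Perm (Fin n) →
      (Fin n → Fin m → Fin (h + 1)) × (Fin n → Fin m → Fin (h + 1)) × (Fin n → Fin q) := fun σ =>
    (fun x t => ⟨dA A B σ x t, Nat.lt_succ_of_le (dep_le (hA _ _) (hBh _ _))⟩,
      fun y t => ⟨dB A B σ y t, Nat.lt_succ_of_le (dep_le (hA _ _) (hBh _ _))⟩,
      fun x => if hc : (cand A B (dA A B σ) (dB A B σ) x).card ≤ q then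
        ⟨((cand A B (dA A B σ) (dB A B σ) x).equivFin ⟨σ x, mem_cand A B σ x⟩).val,
          lt_of_lt_of_le (Fin.isLt _) hc⟩ else ⟨0, hq⟩)
  have hcard : Fintype.card
      ((Fin n → Fin m → Fin (h + 1)) × (Fin n → Fin m → Fin (h + 1)) × (Fin n → Fin q)) =
      ((h + 1) ^ m) ^ n * (((h + 1) ^ m) ^ n * q ^ n) := by
    simp
  rw [← hcard, ← card_univ (α := (Fin n → Fin m → Fin (h + 1)) ×
    (Fin n → Fin m → Fin (h + 1)) × (Fin n → Fin q))]
  apply card_le_card_of_injOn enc (fun _ _ => mem_coe.2 (mem_univ _))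
  intro σ hσ τ hτ heq
  rw [mem_coe, mem_filter] at hσ hτ
  have h1 : dA A B σ = dA A B τ := by
    funext x t
    have := congrArg (fun z => (z.1 x t).val) heq
    exact this
  have h2 : dB A B σ = dB A B τ := by
    funext x t
    have := congrArg (fun z => (z.2.1 x t).val) heq
    exact this
  apply Equiv.ext
  intro x
  have h3 := congrArg (fun z => (z.2.2 x).val) heq
  simp only [enc] at h3
  rw [dif_pos (cand_card hq hB hσ.2 x), dif_pos (cand_card hq hB hτ.2 x)] at h3
  simp only at h3
  have key : ∀ (C C' : Finset (Fin n)) (hCC : C = C') (y y' : Fin n) (hy : y ∈ C) (hy' : y' ∈ C'),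
      (C.equivFin ⟨y, hy⟩).val = (C'.equivFin ⟨y', hy'⟩).val → y = y' := by
    rintro C _ rfl y y' hy hy' he
    have := C.equivFin.injective (Fin.ext he)
    exact congrArg Subtype.val this
  exact key _ _ (by rw [h1, h2]) _ _ (mem_cand A B σ x) (mem_cand A B τ x) h3

end Matching

/-- the number of functions with few values -/
theorem count_levels {V W : Type} [Fintype V] [DecidableEq V] [Fintype W] [DecidableEq W] (K : ℕ) :
    (univ.filter fun l : V → W => (univ.image l).card ≤ K).card ≤
      2 ^ Fintype.card W * K ^ Fintype.card V := by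
  by_cases hV : Nonempty V
  swap
  · rw [not_nonempty_iff] at hV
    have h1 : Fintype.card V = 0 := Fintype.card_eq_zero
    rw [h1, pow_zero, mul_one]
    refine (card_le_univ _).trans ?_
    rw [Fintype.card_fun, h1, pow_zero]
    exact Nat.one_le_two_pow
  by_cases hK : K = 0
  · subst hK
    have : (univ.filter fun l : V → W => (univ.image l).card ≤ 0) = ∅ := by
      rw [filter_eq_empty_iff]
      intro l _ hl
      obtain ⟨v⟩ := hV
      have : l v ∈ univ.image l := mem_image_of_mem _ (mem_univ _)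
      rw [Nat.le_zero, card_eq_zero] at hl
      rw [hl] at this
      exact notMem_empty _ this
    rw [this]
    simp
  let enc : (V → W) → Finset W × (V → Fin K) := fun l =>
    (univ.image l, fun v => if hc : (univ.image l).card ≤ K then
      ⟨((univ.image l).equivFin ⟨l v, mem_image_of_mem _ (mem_univ _)⟩).val,
        lt_of_lt_of_le (Fin.isLt _) hc⟩ else ⟨0, Nat.pos_of_ne_zero hK⟩)
  have hcard : Fintype.card (Finset W × (V → Fin K)) =
      2 ^ Fintype.card W * K ^ Fintype.card V := by
    simp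
  rw [← hcard, ← card_univ (α := Finset W × (V → Fin K))]
  apply card_le_card_of_injOn enc (fun _ _ => mem_coe.2 (mem_univ _))
  intro l hl l' hl' heq
  rw [mem_coe, mem_filter] at hl hl'
  have h1 : univ.image l = univ.image l' := congrArg Prod.fst heq
  funext v
  have h3 := congrArg (fun z => (z.2 v).val) heq
  simp only [enc] at h3
  rw [dif_pos hl.2, dif_pos hl'.2] at h3
  simp only at h3
  have key : ∀ (C C' : Finset W) (hCC : C = C') (y y' : W) (hy : y ∈ C) (hy' : y' ∈ C'),
      (C.equivFin ⟨y, hy⟩).val = (C'.equivFin ⟨y', hy'⟩).val → y = y' := by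
    rintro C _ rfl y y' hy hy' he
    have := C.equivFin.injective (Fin.ext he)
    exact congrArg Subtype.val this
  exact key _ _ h1 _ _ (mem_image_of_mem _ (mem_univ _)) (mem_image_of_mem _ (mem_univ _)) h3

open scoped Classical in
theorem total_count {n m h q K : ℕ} (hq : 1 ≤ q)
    (H : ∀ σ : Fin 7 → Fin 7 → Equiv.Perm (Fin n), ∃ l : Vx n → Fin m → Fin (2 ^ h),
      (univ.image l).card ≤ K ∧ (∀ t x, (univ.filter fun v => l v t = x).card ≤ q) ∧
      ∀ i j, Compat (fun x t => (l (Sum.inl (i, x)) t).val)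
        (fun y t => (l (Sum.inr (j, y)) t).val) (σ i j)) :
    n.factorial ^ 49 ≤ (2 ^ ((2 ^ h) ^ m) * K ^ (14 * n)) *
      (((h + 1) ^ m) ^ n * (((h + 1) ^ m) ^ n * q ^ n)) ^ 49 := by
  classical
  set X := ((h + 1) ^ m) ^ n * (((h + 1) ^ m) ^ n * q ^ n) with hX
  let Lam : Finset (Vx n → Fin m → Fin (2 ^ h)) := univ.filter fun l =>
    (univ.image l).card ≤ K
  let S : (Vx n → Fin m → Fin (2 ^ h)) → Finset (Fin 7 → Fin 7 → Equiv.Perm (Fin n)) := fun l =>
    if ∀ t x, (univ.filter fun v => l v t = x).card ≤ q then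
      Fintype.piFinset fun i => Fintype.piFinset fun j => univ.filter fun σ =>
        Compat (fun x t => (l (Sum.inl (i, x)) t).val) (fun y t => (l (Sum.inr (j, y)) t).val) σ
    else ∅
  have hcov : (univ : Finset (Fin 7 → Fin 7 → Equiv.Perm (Fin n))) ⊆ Lam.biUnion S := by
    intro σ _
    obtain ⟨l, h1, h2, h3⟩ := H σ
    rw [mem_biUnion]
    refine ⟨l, mem_filter.2 ⟨mem_univ _, h1⟩, ?_⟩
    simp only [S]
    rw [if_pos h2]
    simp only [Fintype.mem_piFinset, mem_filter, mem_univ, true_and]
    exact h3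
  have hS : ∀ l ∈ Lam, (S l).card ≤ X ^ 49 := by
    intro l _
    simp only [S]
    split_ifs with hl
    · rw [Fintype.card_piFinset]
      have h1 : ∀ i ∈ (univ : Finset (Fin 7)), (Fintype.piFinset fun j => univ.filter fun σ =>
          Compat (fun x t => (l (Sum.inl (i, x)) t).val)
            (fun y t => (l (Sum.inr (j, y)) t).val) σ).card ≤ X ^ 7 := by
        intro i _
        rw [Fintype.card_piFinset]
        have h2 : ∀ j ∈ (univ : Finset (Fin 7)), (univ.filter fun σ =>
            Compat (fun x t => (l (Sum.inl (i, x)) t).val)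
              (fun y t => (l (Sum.inr (j, y)) t).val) σ).card ≤ X := by
          intro j _
          apply count_matchings (fun x t => (l _ t).isLt) (fun x t => (l _ t).isLt) hq
          intro t x
          by_cases hx : x < 2 ^ h
          · refine le_trans ?_ (hl t ⟨x, hx⟩)
            rw [← card_map ⟨fun y : Fin n => (Sum.inr (j, y) : Vx n), fun y y' e => by
              simpa using e⟩]
            apply card_le_card
            intro v hv
            obtain ⟨y, hy, rfl⟩ := mem_map.1 hv
            simp only [mem_filter, mem_univ, true_and] at hy ⊢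
            exact Fin.ext hy
          · have : (univ.filter fun y : Fin n => (l (Sum.inr (j, y)) t).val = x) = ∅ := by
              rw [filter_eq_empty_iff]
              intro y _ hy
              exact hx (hy ▸ (l _ t).isLt)
            rw [this]
            simp
        calc _ ≤ ∏ _j : Fin 7, X := prod_le_prod' h2
          _ = X ^ 7 := by simp
      calc _ ≤ ∏ _i : Fin 7, X ^ 7 := prod_le_prod' h1
        _ = X ^ 49 := by simp [← pow_mul]
    · simp
  have h1 := card_le_card hcov
  have h2 : (univ : Finset (Fin 7 → Fin 7 → Equiv.Perm (Fin n))).card = n.factorial ^ 49 := by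
    rw [card_univ, Fintype.card_fun, Fintype.card_fun, Fintype.card_perm, Fintype.card_fin,
      Fintype.card_fin, ← pow_mul]
  rw [h2] at h1
  refine h1.trans (card_biUnion_le.trans ((sum_le_card_nsmul _ _ _ hS).trans ?_))
  rw [smul_eq_mul]
  apply Nat.mul_le_mul_right
  have h3 := count_levels (V := Vx n) (W := Fin m → Fin (2 ^ h)) K
  have h4 : Fintype.card (Fin m → Fin (2 ^ h)) = (2 ^ h) ^ m := by simp
  have h5 : Fintype.card (Vx n) = 14 * n := by
    rw [Fintype.card_sum, Fintype.card_prod, Fintype.card_fin, Fintype.card_fin]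
    ring
  rw [h4, h5] at h3
  exact h3

end Pool.Agent.X67.SD
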