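import Pool.Agent.X67.SD.Count

/-!
# MP_38bec9_co: levels from a separating embedding
-/

set_option autoImplicit false

namespace Pool.Agent.X67.SD

open Finset

/-- generic projections -/
theorem generic_proj {n m : ℕ} (u : Fin m → E3) (hu : ∀ t, u t ≠ 0) (φ : Vx n → E3) :
    ∃ ψ : Vx n → E3, (∀ t, Function.Injective fun v => inner ℝ (u t) (ψ v)) ∧
      ∀ t v w, inner ℝ (u t) (φ v) < (inner ℝ (u t) (φ w) : ℝ) →
        inner ℝ (u t) (ψ v) < (inner ℝ (u t) (ψ w) : ℝ) := by
  obtain ⟨z, hz⟩ : ∃ z : E3, ∀ t, (inner ℝ (u t) z : ℝ) ≠ 0 := by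
    have := Module.Dual.exists_forall_ne_zero_of_forall_exists
      (fun t => (innerSL ℝ (u t)).toLinearMap) (fun t => ⟨u t, by
        simpa using hu t⟩)
    obtain ⟨z, hz⟩ := this
    exact ⟨z, fun t => by simpa using hz t⟩
  let idx : Vx n → ℝ := fun v => ((Fintype.equivFin (Vx n) v).val : ℝ)
  have hidx : Function.Injective idx := by
    intro v w h
    have : (Fintype.equivFin (Vx n) v).val = (Fintype.equivFin (Vx n) w).val :=
      Nat.cast_injective h
    exact (Fintype.equivFin (Vx n)).injective (Fin.ext this)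
  have key : ∀ t v w, v ≠ w → ∀ᶠ ε : ℝ in nhdsWithin 0 (Set.Ioi 0),
      ((inner ℝ (u t) (φ v + (ε * idx v) • z) : ℝ) ≠ inner ℝ (u t) (φ w + (ε * idx w) • z)) ∧
      (inner ℝ (u t) (φ v) < (inner ℝ (u t) (φ w) : ℝ) →
        inner ℝ (u t) (φ v + (ε * idx v) • z) <
          (inner ℝ (u t) (φ w + (ε * idx w) • z) : ℝ)) := by
    intro t v w hvw
    have hcont : ∀ y : Vx n, Filter.Tendsto
        (fun ε : ℝ => (inner ℝ (u t) (φ y + (ε * idx y) • z) : ℝ)) (nhdsWithin 0 (Set.Ioi 0))
        (nhds (inner ℝ (u t) (φ y))) := by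
      intro y
      have h1 : Continuous (fun ε : ℝ => (inner ℝ (u t) (φ y + (ε * idx y) • z) : ℝ)) := by
        fun_prop
      have h2 := h1.tendsto 0
      simp only [zero_mul, zero_smul, add_zero] at h2
      exact h2.mono_left nhdsWithin_le_nhds
    rcases lt_trichotomy (inner ℝ (u t) (φ v) : ℝ) (inner ℝ (u t) (φ w)) with hlt | heq | hgt
    · filter_upwards [(hcont v).eventually_lt (hcont w) hlt] with ε hε
      exact ⟨hε.ne, fun _ => hε⟩
    · filter_upwards [self_mem_nhdsWithin] with ε hε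
      refine ⟨?_, fun h => absurd heq h.ne⟩
      intro h
      simp only [inner_add_right, inner_smul_right] at h
      rw [heq] at h
      have h3 : ε * (idx v - idx w) * inner ℝ (u t) z = 0 := by linarith
      have h4 : (0 : ℝ) < ε := hε
      have h5 : idx v - idx w ≠ 0 := sub_ne_zero.2 fun e => hvw (hidx e)
      exact (mul_ne_zero (mul_ne_zero h4.ne' h5) (hz t)) h3
    · filter_upwards [(hcont w).eventually_lt (hcont v) hgt] with ε hε
      exact ⟨hε.ne', fun h => absurd h hgt.not_gt⟩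
  have key2 : ∀ᶠ ε : ℝ in nhdsWithin 0 (Set.Ioi 0), ∀ (t : Fin m) (v w : Vx n), v ≠ w →
      ((inner ℝ (u t) (φ v + (ε * idx v) • z) : ℝ) ≠ inner ℝ (u t) (φ w + (ε * idx w) • z)) ∧
      (inner ℝ (u t) (φ v) < (inner ℝ (u t) (φ w) : ℝ) →
        inner ℝ (u t) (φ v + (ε * idx v) • z) <
          (inner ℝ (u t) (φ w + (ε * idx w) • z) : ℝ)) := by
    rw [Filter.eventually_all]
    intro t
    rw [Filter.eventually_all]
    intro v
    rw [Filter.eventually_all]
    intro w
    by_cases hvw : v = w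
    · exact Filter.Eventually.of_forall fun _ h => absurd hvw h
    · filter_upwards [key t v w hvw] with ε hε _ using hε
  obtain ⟨ε, hε⟩ := key2.exists
  refine ⟨fun v => φ v + (ε * idx v) • z, ?_, ?_⟩
  · intro t v w h
    by_contra hne
    exact (hε t v w hne).1 h
  · intro t v w h
    have hne : v ≠ w := fun e => by
      rw [e] at h
      exact lt_irrefl _ h
    exact (hε t v w hne).2 h

/-- the subset of a level vector -/
def subs {m H : ℕ} (a : Fin m → Fin H) : Finset (Fin m × Fin H) :=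
  univ.filter fun p => p.2 ≤ a p.1

theorem mem_subs {m H : ℕ} (a : Fin m → Fin H) (p : Fin m × Fin H) :
    p ∈ subs a ↔ p.2 ≤ a p.1 := by
  simp [subs]

theorem subs_injective {m H : ℕ} :
    Function.Injective (subs : (Fin m → Fin H) → Finset (Fin m × Fin H)) := by
  intro a b hab
  funext t
  apply le_antisymm
  · have : (t, a t) ∈ subs b := by
      rw [← hab, mem_subs]
    rwa [mem_subs] at this
  · have : (t, b t) ∈ subs a := by
      rw [hab, mem_subs]
    rwa [mem_subs] at this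

open scoped Classical in
theorem levels_card {n m H : ℕ} (u : Fin m → E3) (ψ : Vx n → E3) (l : Vx n → Fin m → Fin H)
    (hl : ∀ t v w, l v t < l w t → inner ℝ (u t) (ψ v) < (inner ℝ (u t) (ψ w) : ℝ)) :
    (univ.image l).card ≤ (m * H + 1) ^ 3 := by
  classical
  rw [← card_image_of_injective (univ.image l) subs_injective]
  set F := (univ.image l).image subs with hF
  have hvc : F.vcDim ≤ 3 := by
    apply Finset.sup_le
    intro s hs
    rw [mem_shatterer] at hs
    by_contra hcon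
    push Not at hcon
    have hdep : ¬ LinearIndependent ℝ (fun k : s => u k.1.1) := by
      intro hli
      have h1 := hli.fintype_card_le_finrank
      rw [finrank_euclideanSpace_fin, Fintype.card_coe] at h1
      omega
    obtain ⟨c, hc, k0, hk0⟩ := Fintype.not_linearIndependent_iff.1 hdep
    have hF' : ∀ t ∈ F, ∃ v, subs (l v) = t := by
      intro t ht
      rw [hF, mem_image] at ht
      obtain ⟨a, ha, rfl⟩ := ht
      rw [mem_image] at ha
      obtain ⟨v, _, rfl⟩ := ha
      exact ⟨v, rfl⟩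
    obtain ⟨t1, ht1, h1⟩ := hs (t := (univ.filter fun k : s => 0 < c k).map
      ⟨Subtype.val, Subtype.val_injective⟩) (by
        intro x hx
        obtain ⟨y, _, rfl⟩ := mem_map.1 hx
        exact y.2)
    obtain ⟨t2, ht2, h2⟩ := hs (t := (univ.filter fun k : s => ¬ 0 < c k).map
      ⟨Subtype.val, Subtype.val_injective⟩) (by
        intro x hx
        obtain ⟨y, _, rfl⟩ := mem_map.1 hx
        exact y.2)
    obtain ⟨v, rfl⟩ := hF' t1 ht1
    obtain ⟨w, rfl⟩ := hF' t2 ht2
    have hv : ∀ k : s, (k : Fin m × Fin H).2 ≤ l v (k : Fin m × Fin H).1 ↔ 0 < c k := by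
      intro k
      have : (k : Fin m × Fin H) ∈ s ∩ subs (l v) ↔ 0 < c k := by
        rw [h1]
        simp
      rw [← this, mem_inter, mem_subs]
      simp [k.2]
    have hw : ∀ k : s, (k : Fin m × Fin H).2 ≤ l w (k : Fin m × Fin H).1 ↔ ¬ 0 < c k := by
      intro k
      have : (k : Fin m × Fin H) ∈ s ∩ subs (l w) ↔ ¬ 0 < c k := by
        rw [h2]
        simp
      rw [← this, mem_inter, mem_subs]
      simp [k.2]
    have hpos : ∀ k : s, 0 < c k →
        0 < c k * ((inner ℝ (u k.1.1) (ψ v) : ℝ) - inner ℝ (u k.1.1) (ψ w)) := by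
      intro k hk
      apply mul_pos hk
      rw [sub_pos]
      apply hl
      have e1 := (hv k).2 hk
      have e2 : ¬ (k : Fin m × Fin H).2 ≤ l w (k : Fin m × Fin H).1 := fun h => (hw k).1 h hk
      exact lt_of_lt_of_le (not_le.1 e2) e1
    have hneg : ∀ k : s, ¬ 0 < c k →
        (inner ℝ (u k.1.1) (ψ v) : ℝ) - inner ℝ (u k.1.1) (ψ w) < 0 := by
      intro k hk
      rw [sub_neg]
      apply hl
      have e1 := (hw k).2 hk
      have e2 : ¬ (k : Fin m × Fin H).2 ≤ l v (k : Fin m × Fin H).1 := fun h => hk ((hv k).1 h)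
      exact lt_of_lt_of_le (not_le.1 e2) e1
    have hnn : ∀ k : s, 0 ≤ c k * ((inner ℝ (u k.1.1) (ψ v) : ℝ) - inner ℝ (u k.1.1) (ψ w)) := by
      intro k
      by_cases hk : 0 < c k
      · exact (hpos k hk).le
      · exact mul_nonneg_of_nonpos_of_nonpos (not_lt.1 hk) (hneg k hk).le
    have hsum : 0 < ∑ k : s,
        c k * ((inner ℝ (u k.1.1) (ψ v) : ℝ) - inner ℝ (u k.1.1) (ψ w)) := by
      apply sum_pos' (fun k _ => hnn k)
      refine ⟨k0, mem_univ _, ?_⟩
      by_cases hk : 0 < c k0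
      · exact hpos k0 hk
      · have : c k0 < 0 := lt_of_le_of_ne (not_lt.1 hk) hk0
        exact mul_pos_of_neg_of_neg this (hneg k0 hk)
    have hzero : ∑ k : s,
        c k * ((inner ℝ (u k.1.1) (ψ v) : ℝ) - inner ℝ (u k.1.1) (ψ w)) = 0 := by
      have e1 : ∀ k : s, c k * ((inner ℝ (u k.1.1) (ψ v) : ℝ) - inner ℝ (u k.1.1) (ψ w)) =
          inner ℝ (c k • u k.1.1) (ψ v - ψ w) := by
        intro k
        rw [inner_smul_left, inner_sub_right]
        simp
      rw [sum_congr rfl fun k _ => e1 k, ← sum_inner, hc, inner_zero_left]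
    exact hsum.ne' hzero
  refine (card_le_card_shatterer F).trans (card_shatterer_le_sum_vcDim.trans ?_)
  have hN : Fintype.card (Fin m × Fin H) = m * H := by simp
  rw [hN]
  calc ∑ k ∈ Iic F.vcDim, (m * H).choose k ≤ ∑ k ∈ Iic 3, (m * H).choose k :=
        sum_le_sum_of_subset (Iic_subset_Iic.2 hvc)
    _ ≤ (m * H + 1) ^ 3 := by
        have e : (Iic 3 : Finset ℕ) = range 4 := by decide
        rw [e]
        simp only [sum_range_succ, sum_range_zero]
        have h0 := Nat.choose_zero_right (m * H)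
        have h1 := Nat.choose_one_right (m * H)
        have h2 := Nat.choose_le_pow (m * H) 2
        have h3 := Nat.choose_le_pow (m * H) 3
        rw [h0, h1]
        nlinarith [h2, h3, Nat.zero_le (m * H)]

/-- the levels -/
theorem levels_exist {n m h n1 : ℕ} (hn1 : 1 ≤ n1) (hn : n = 2 ^ h * n1)
    (σ : Fin 7 → Fin 7 → Equiv.Perm (Fin n)) (u : Fin m → E3) (hu : ∀ t, u t ≠ 0)
    (φ : Vx n → E3)
    (hφ : ∀ a b c d, (graph σ).Adj a b → (graph σ).Adj c d → a ≠ c → a ≠ d → b ≠ c → b ≠ d →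
      ∃ (i : Fin m) (t : ℝ),
        ((∀ x ∈ segment ℝ (φ a) (φ b), inner ℝ (u i) x < t) ∧
          (∀ x ∈ segment ℝ (φ c) (φ d), t < inner ℝ (u i) x)) ∨
        ((∀ x ∈ segment ℝ (φ a) (φ b), t < inner ℝ (u i) x) ∧
          (∀ x ∈ segment ℝ (φ c) (φ d), inner ℝ (u i) x < t))) :
    ∃ l : Vx n → Fin m → Fin (2 ^ h),
      (univ.image l).card ≤ (m * 2 ^ h + 1) ^ 3 ∧
      (∀ t x, (univ.filter fun v => l v t = x).card ≤ 14 * n1) ∧
      ∀ i j, Compat (fun x t => (l (Sum.inl (i, x)) t).val)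
        (fun y t => (l (Sum.inr (j, y)) t).val) (σ i j) := by
  classical
  obtain ⟨ψ, hinj, hmono⟩ := generic_proj u hu φ
  have hsep : ∀ a b c d, (graph σ).Adj a b → (graph σ).Adj c d → a ≠ c → a ≠ d → b ≠ c →
      b ≠ d → ∃ t : Fin m,
        ((inner ℝ (u t) (ψ a) < (inner ℝ (u t) (ψ c) : ℝ) ∧
          inner ℝ (u t) (ψ a) < (inner ℝ (u t) (ψ d) : ℝ) ∧
          inner ℝ (u t) (ψ b) < (inner ℝ (u t) (ψ c) : ℝ) ∧
          inner ℝ (u t) (ψ b) < (inner ℝ (u t) (ψ d) : ℝ)) ∨
        (inner ℝ (u t) (ψ c) < (inner ℝ (u t) (ψ a) : ℝ) ∧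
          inner ℝ (u t) (ψ d) < (inner ℝ (u t) (ψ a) : ℝ) ∧
          inner ℝ (u t) (ψ c) < (inner ℝ (u t) (ψ b) : ℝ) ∧
          inner ℝ (u t) (ψ d) < (inner ℝ (u t) (ψ b) : ℝ))) := by
    intro a b c d hab hcd hac had hbc hbd
    obtain ⟨t, s, h | h⟩ := hφ a b c d hab hcd hac had hbc hbd
    · have ha := h.1 _ (left_mem_segment ℝ (φ a) (φ b))
      have hb := h.1 _ (right_mem_segment ℝ (φ a) (φ b))
      have hc := h.2 _ (left_mem_segment ℝ (φ c) (φ d))
      have hd := h.2 _ (right_mem_segment ℝ (φ c) (φ d))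
      exact ⟨t, Or.inl ⟨hmono _ _ _ (ha.trans hc), hmono _ _ _ (ha.trans hd),
        hmono _ _ _ (hb.trans hc), hmono _ _ _ (hb.trans hd)⟩⟩
    · have ha := h.1 _ (left_mem_segment ℝ (φ a) (φ b))
      have hb := h.1 _ (right_mem_segment ℝ (φ a) (φ b))
      have hc := h.2 _ (left_mem_segment ℝ (φ c) (φ d))
      have hd := h.2 _ (right_mem_segment ℝ (φ c) (φ d))
      exact ⟨t, Or.inr ⟨hmono _ _ _ (hc.trans ha), hmono _ _ _ (hd.trans ha),
        hmono _ _ _ (hc.trans hb), hmono _ _ _ (hd.trans hb)⟩⟩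
  -- ranks
  let r : Fin m → Vx n → ℕ := fun t v =>
    (univ.filter fun w => inner ℝ (u t) (ψ w) < (inner ℝ (u t) (ψ v) : ℝ)).card
  have hcardV : Fintype.card (Vx n) = 14 * n := by
    rw [Fintype.card_sum, Fintype.card_prod, Fintype.card_fin, Fintype.card_fin]
    ring
  have hr_lt : ∀ t v, r t v < 14 * n := by
    intro t v
    rw [← hcardV, ← card_univ]
    apply card_lt_card
    rw [ssubset_univ_iff]
    intro e
    have : v ∈ (univ.filter fun w => inner ℝ (u t) (ψ w) < (inner ℝ (u t) (ψ v) : ℝ)) := by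
      rw [e]
      exact mem_univ _
    rw [mem_filter] at this
    exact lt_irrefl _ this.2
  have hr_mono : ∀ t v w, inner ℝ (u t) (ψ v) ≤ (inner ℝ (u t) (ψ w) : ℝ) → r t v ≤ r t w := by
    intro t v w h
    apply card_le_card
    intro x hx
    rw [mem_filter] at hx ⊢
    exact ⟨mem_univ _, hx.2.trans_le h⟩
  have hr_strict : ∀ t v w, inner ℝ (u t) (ψ v) < (inner ℝ (u t) (ψ w) : ℝ) → r t v < r t w := by
    intro t v w h
    apply card_lt_card
    rw [ssubset_iff_of_subset]
    · refine ⟨v, mem_filter.2 ⟨mem_univ _, h⟩, ?_⟩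
      rw [mem_filter]
      exact fun h' => lt_irrefl _ h'.2
    · intro x hx
      rw [mem_filter] at hx ⊢
      exact ⟨mem_univ _, hx.2.trans h⟩
  have hr_inj : ∀ t, Function.Injective (r t) := by
    intro t v w h
    rcases lt_trichotomy (inner ℝ (u t) (ψ v) : ℝ) (inner ℝ (u t) (ψ w)) with h1 | h1 | h1
    · exact absurd h (hr_strict t v w h1).ne
    · exact hinj t h1
    · exact absurd h (hr_strict t w v h1).ne'
  have hq : 0 < 14 * n1 := by omega
  have hlev : ∀ t v, r t v / (14 * n1) < 2 ^ h := by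
    intro t v
    rw [Nat.div_lt_iff_lt_mul hq]
    have := hr_lt t v
    rw [hn] at this
    calc r t v < 14 * (2 ^ h * n1) := this
      _ = 2 ^ h * (14 * n1) := by ring
  let l : Vx n → Fin m → Fin (2 ^ h) := fun v t => ⟨r t v / (14 * n1), hlev t v⟩
  have hlmono : ∀ t v w, l v t < l w t → inner ℝ (u t) (ψ v) < (inner ℝ (u t) (ψ w) : ℝ) := by
    intro t v w h
    by_contra hcon
    push Not at hcon
    have h1 := hr_mono t w v hcon
    have h2 : r t w / (14 * n1) ≤ r t v / (14 * n1) := Nat.div_le_div_right h1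
    have h3 : r t v / (14 * n1) < r t w / (14 * n1) := h
    omega
  refine ⟨l, ?_, ?_, ?_⟩
  · convert levels_card u ψ l hlmono
  · intro t x
    rw [← card_range (14 * n1)]
    apply card_le_card_of_injOn (fun v => r t v % (14 * n1))
    · intro v _
      exact mem_coe.2 (mem_range.2 (Nat.mod_lt _ hq))
    · intro v hv w hw hvw
      rw [mem_coe, mem_filter] at hv hw
      have e1 : r t v / (14 * n1) = x.val := congrArg Fin.val hv.2
      have e2 : r t w / (14 * n1) = x.val := congrArg Fin.val hw.2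
      have e3 : r t v % (14 * n1) = r t w % (14 * n1) := hvw
      apply hr_inj t
      rw [← Nat.div_add_mod (r t v) (14 * n1), ← Nat.div_add_mod (r t w) (14 * n1), e1, e2, e3]
  · intro i j x x' hne haddr
    have hadj : ∀ y : Fin n, (graph σ).Adj (Sum.inl (i, y)) (Sum.inr (j, σ i j y)) := fun y => rfl
    obtain ⟨t, ht⟩ := hsep (Sum.inl (i, x)) (Sum.inr (j, σ i j x)) (Sum.inl (i, x'))
      (Sum.inr (j, σ i j x')) (hadj x) (hadj x') (by
        intro e
        exact hne (by simpa using e)) (by simp) (by simp) (by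
        intro e
        apply hne
        have : σ i j x = σ i j x' := by simpa using e
        exact (σ i j).injective this)
    refine ⟨t, ?_⟩
    by_contra h0
    obtain ⟨h1, h2⟩ := haddr t
    have c1 := dep_cross h1 h2 h0
    have c2 := dep_cross h1.symm (by rw [← h1]; exact h2.symm) (by rw [← h1]; exact h0)
    have step : ∀ v w, (l v t).val < (l w t).val →
        inner ℝ (u t) (ψ v) < (inner ℝ (u t) (ψ w) : ℝ) := fun v w h => hlmono t v w h
    rw [min_lt_iff, lt_max_iff, lt_max_iff] at c1 c2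
    rcases ht with ⟨t1, t2, t3, t4⟩ | ⟨t1, t2, t3, t4⟩
    · rcases c2 with (c | c) | (c | c)
      · exact lt_asymm t1 (step _ _ c)
      · exact lt_asymm t3 (step _ _ c)
      · exact lt_asymm t2 (step _ _ c)
      · exact lt_asymm t4 (step _ _ c)
    · rcases c1 with (c | c) | (c | c)
      · exact lt_asymm t1 (step _ _ c)
      · exact lt_asymm t2 (step _ _ c)
      · exact lt_asymm t3 (step _ _ c)
      · exact lt_asymm t4 (step _ _ c)

end Pool.Agent.X67.SD
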