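import Pool.Agent.X67.SD.Geom

/-!
# MP_38bec9_co: the numbers and the main theorem
-/

set_option autoImplicit false

namespace Pool.Agent.X67.SD

open Finset

theorem pow_self_le (n : ℕ) : n ^ n ≤ 3 ^ n * n.factorial := by
  have h1 := Real.pow_div_factorial_le_exp (n : ℝ) (Nat.cast_nonneg n) n
  have h2 : Real.exp (n : ℝ) ≤ 3 ^ n := by
    have : Real.exp (n : ℝ) = Real.exp 1 ^ n := by
      rw [← Real.exp_nat_mul, mul_one]
    rw [this]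
    apply pow_le_pow_left₀ (Real.exp_pos 1).le
    have := Real.exp_one_lt_d9
    linarith
  have h3 : (0 : ℝ) < n.factorial := by exact_mod_cast n.factorial_pos
  rw [div_le_iff₀ h3] at h1
  have h4 : (n : ℝ) ^ n ≤ 3 ^ n * n.factorial :=
    h1.trans (mul_le_mul_of_nonneg_right h2 h3.le)
  exact_mod_cast h4

/-- exponentials beat polynomials -/
theorem exists_h (m : ℕ) :
    ∃ h : ℕ, 2 * 42 ^ 49 * (m + 1) ^ 42 * (h + 1) ^ (98 * m) ≤ 2 ^ (7 * h) := by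
  have h1 := tendsto_pow_const_div_const_pow_of_one_lt (98 * m) (one_lt_two (α := ℝ))
  have hC : (0 : ℝ) < 1 / (2 * 42 ^ 49 * (m + 1) ^ 42) := by positivity
  have h2 := (h1.eventually_lt_const hC).and (Filter.eventually_ge_atTop 2)
  obtain ⟨N, hN, hN2⟩ := h2.exists
  refine ⟨N - 1, ?_⟩
  have e : N - 1 + 1 = N := by omega
  rw [e]
  have h3 : (N : ℝ) ^ (98 * m) * (2 * 42 ^ 49 * (m + 1) ^ 42) < 2 ^ N := by
    rw [div_lt_div_iff₀ (by positivity) (by positivity), one_mul] at hN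
    exact hN
  have h4 : N ^ (98 * m) * (2 * 42 ^ 49 * (m + 1) ^ 42) < 2 ^ N := by exact_mod_cast h3
  calc 2 * 42 ^ 49 * (m + 1) ^ 42 * N ^ (98 * m) = N ^ (98 * m) * (2 * 42 ^ 49 * (m + 1) ^ 42) := by
        ring
    _ ≤ 2 ^ N := h4.le
    _ ≤ 2 ^ (7 * (N - 1)) := Nat.pow_le_pow_right (by norm_num) (by omega)

theorem eq1 (x y a b B n1 n P : ℕ) :
    x ^ (49 * n) * ((P * ((b * a) ^ 3) ^ (14 * n)) * (B ^ n * (B ^ n * (y * n1) ^ n)) ^ 49) =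
      P * ((x ^ 49 * y ^ 49 * b ^ 42 * B ^ 98) * a ^ 42 * n1 ^ 49) ^ n := by
  ring

theorem eq2 (z D a n1 n P : ℕ) :
    z ^ n * (P * (D * a ^ 42 * n1 ^ 49) ^ n) = P * ((z * D) * a ^ 42 * n1 ^ 49) ^ n := by
  ring

theorem eq3 (a n1 n : ℕ) : ((a ^ 7) * a ^ 42 * n1 ^ 49) ^ n = (a * n1) ^ (49 * n) := by
  ring

/-- the inequality between the numbers -/
theorem arith {x y z a b B n1 n P F K : ℕ} (hn : n = a * n1)
    (hD : z * (x ^ 49 * y ^ 49 * b ^ 42 * B ^ 98) ≤ a ^ 7)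
    (hF : n ^ n ≤ x ^ n * F) (hK : K ≤ (b * a) ^ 3)
    (H : F ^ 49 ≤ (P * K ^ (14 * n)) * (B ^ n * (B ^ n * (y * n1) ^ n)) ^ 49) :
    z ^ n * n ^ (49 * n) ≤ P * n ^ (49 * n) := by
  have hfac : n ^ (49 * n) ≤ x ^ (49 * n) * F ^ 49 := by
    calc n ^ (49 * n) = (n ^ n) ^ 49 := by rw [← pow_mul, mul_comm]
      _ ≤ (x ^ n * F) ^ 49 := Nat.pow_le_pow_left hF 49
      _ = x ^ (49 * n) * F ^ 49 := by rw [mul_pow, ← pow_mul, mul_comm n 49]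
  have h1 : n ^ (49 * n) ≤
      x ^ (49 * n) * ((P * K ^ (14 * n)) * (B ^ n * (B ^ n * (y * n1) ^ n)) ^ 49) :=
    hfac.trans (Nat.mul_le_mul_left _ H)
  have h2 : x ^ (49 * n) * ((P * K ^ (14 * n)) * (B ^ n * (B ^ n * (y * n1) ^ n)) ^ 49) ≤
      x ^ (49 * n) * ((P * ((b * a) ^ 3) ^ (14 * n)) * (B ^ n * (B ^ n * (y * n1) ^ n)) ^ 49) :=
    Nat.mul_le_mul_left _ (Nat.mul_le_mul_right _ (Nat.mul_le_mul_left _
      (Nat.pow_le_pow_left hK _)))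
  rw [eq1] at h2
  calc z ^ n * n ^ (49 * n) ≤
        z ^ n * (P * ((x ^ 49 * y ^ 49 * b ^ 42 * B ^ 98) * a ^ 42 * n1 ^ 49) ^ n) :=
        Nat.mul_le_mul_left _ (h1.trans h2)
    _ = P * ((z * (x ^ 49 * y ^ 49 * b ^ 42 * B ^ 98)) * a ^ 42 * n1 ^ 49) ^ n := eq2 _ _ _ _ _ _
    _ ≤ P * ((a ^ 7) * a ^ 42 * n1 ^ 49) ^ n :=
        Nat.mul_le_mul_left _ (Nat.pow_le_pow_left (Nat.mul_le_mul_right _
          (Nat.mul_le_mul_right _ hD)) _)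
    _ = P * n ^ (49 * n) := by rw [eq3, ← hn]

/-- for `M` planes some graph has no separating embedding -/
theorem exists_graph (M : ℕ) : ∃ (n : ℕ) (σ : Fin 7 → Fin 7 → Equiv.Perm (Fin n)),
    ∀ (u : Fin M → E3), (∀ t, u t ≠ 0) → ∀ φ : Vx n → E3,
    ¬ (∀ a b c d, (graph σ).Adj a b → (graph σ).Adj c d → a ≠ c → a ≠ d → b ≠ c → b ≠ d →
      ∃ (i : Fin M) (t : ℝ),
        ((∀ x ∈ segment ℝ (φ a) (φ b), inner ℝ (u i) x < t) ∧
          (∀ x ∈ segment ℝ (φ c) (φ d), t < inner ℝ (u i) x)) ∨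
        ((∀ x ∈ segment ℝ (φ a) (φ b), t < inner ℝ (u i) x) ∧
          (∀ x ∈ segment ℝ (φ c) (φ d), inner ℝ (u i) x < t))) := by
  obtain ⟨h, hh⟩ := exists_h M
  obtain ⟨n1, hn1⟩ : ∃ n1, n1 = 2 ^ (h * M) + 1 := ⟨_, rfl⟩
  obtain ⟨n, hn⟩ : ∃ n, n = 2 ^ h * n1 := ⟨_, rfl⟩
  refine ⟨n, ?_⟩
  by_contra hcon
  push Not at hcon
  have hn1' : 1 ≤ n1 := by rw [hn1]; exact Nat.le_add_left _ _
  have hq : 1 ≤ 14 * n1 := by omega
  have H := total_count (n := n) (m := M) (h := h) (q := 14 * n1) (K := (M * 2 ^ h + 1) ^ 3)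
    hq (fun σ => by
      obtain ⟨u, hu, φ, hφ⟩ := hcon σ
      obtain ⟨l, hl1, hl2, hl3⟩ := levels_exist hn1' hn σ u hu φ hφ
      refine ⟨l, ?_, ?_, hl3⟩
      · convert hl1
      · intro t x
        convert hl2 t x)
  have hK : M * 2 ^ h + 1 ≤ (M + 1) * 2 ^ h := by
    have : 1 ≤ 2 ^ h := Nat.one_le_two_pow
    nlinarith
  have hD : 2 * (3 ^ 49 * 14 ^ 49 * (M + 1) ^ 42 * ((h + 1) ^ M) ^ 98) ≤ (2 ^ h) ^ 7 := by
    calc 2 * (3 ^ 49 * 14 ^ 49 * (M + 1) ^ 42 * ((h + 1) ^ M) ^ 98)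
        = 2 * 42 ^ 49 * (M + 1) ^ 42 * (h + 1) ^ (98 * M) := by
          rw [← pow_mul (h + 1) M 98, mul_comm M 98, ← mul_pow 3 14 49]
          ring
      _ ≤ 2 ^ (7 * h) := hh
      _ = (2 ^ h) ^ 7 := by rw [← pow_mul, mul_comm]
  have h5 := arith hn hD (pow_self_le n) (Nat.pow_le_pow_left hK 3) H
  have hnpos : 0 < n := by
    rw [hn]
    positivity
  have h6 : 2 ^ n ≤ 2 ^ ((2 ^ h) ^ M) := Nat.le_of_mul_le_mul_right h5 (by positivity)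
  have h7 : n ≤ (2 ^ h) ^ M := (Nat.pow_le_pow_iff_right (by norm_num)).1 h6
  have h8 : (2 ^ h) ^ M < n := by
    rw [hn, hn1, ← pow_mul]
    have : 1 ≤ 2 ^ h := Nat.one_le_two_pow
    nlinarith
  exact absurd h7 (not_le.2 h8)

/-- graphs of separation dimension at most `98` need arbitrarily many planes -/
theorem main (M : ℕ) : ∃ (n : ℕ) (σ : Fin 7 → Fin 7 → Equiv.Perm (Fin n)),
    sepDim (graph σ) ≤ 98 ∧ (M : ℕ∞) < pi3 (graph σ) := by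
  obtain ⟨n, σ, H⟩ := exists_graph M
  refine ⟨n, σ, sepDim_le σ, ?_⟩
  have key : ((M + 1 : ℕ) : ℕ∞) ≤ pi3 (graph σ) := by
    apply le_sInf
    rintro N ⟨m, u, φ, ⟨hu, _, _, hsep⟩, rfl⟩
    by_contra hcon
    rw [not_le, Nat.cast_lt] at hcon
    have hm : m ≤ M := by omega
    obtain ⟨w, hw⟩ : ∃ w : E3, w ≠ 0 := exists_ne 0
    refine H (fun t => if ht : t.val < m then u ⟨t.val, ht⟩ else w) ?_ φ ?_
    · intro t
      split_ifs with ht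
      · exact hu _
      · exact hw
    · intro a b c d hab hcd hac had hbc hbd
      obtain ⟨i, t, h⟩ := hsep a b c d hab hcd hac had hbc hbd
      refine ⟨⟨i.val, by omega⟩, t, ?_⟩
      rw [dif_pos i.isLt]
      exact h
  refine lt_of_lt_of_le ?_ key
  rw [Nat.cast_lt]
  omega

end Pool.Agent.X67.SD
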